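import Mathlib
import Pool.Agent.H960R2.VB.Defs
import Pool.Agent.Q49.RB.Law8
import Pool.Agent.Q49.RB.Event

/-!
# The Chern classes of the rank two bundles on `P^n`, and the bundles of Horrocks-Mumford type

The Euler characteristics of all twists of a bundle of rank two on `P^n` with Chern classes
`c₁`, `c₂` are integers.  For which `c₁`, `c₂` is this condition of Schwarzenberger satisfied?
We give the complete answer, for all `n`.  Write `c₁² - 4 c₂ = δ d²` with a fundamental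
discriminant `δ` (or `δ = 1`).  The condition holds if and only if for all primes `p` and all
`k ≥ 1`
* `p ^ k` divides `d` if `p` is inert in `ℚ(√δ)` and `p ^ k + p ^ (k - 1) ≤ n`,
* `p ^ k` divides `d` if `p` divides `δ` and `2 p ^ k ≤ n`.

The bundle `f^* F(k)`, where `F` is the Horrocks-Mumford bundle and `f` a self map of degree `d` of
`P^4`, has the Chern classes `5 d + 2 k`, `10 d² + 5 d k + k²` and the discriminant `-15 d²`.  So if
it extends to `P^n`, then `p ^ j` divides `d` for all primes `p` congruent to `7`, `11`, `13`, `14`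
modulo `15` and all `j ≥ 1` with `p ^ j + p ^ (j - 1) ≤ n`, and for `p = 3`, `5` and all `j ≥ 1` with
`2 p ^ j ≤ n`.
-/

set_option autoImplicit false

namespace Pool.Agent.Results.MP_745d3a_ag.ExtensionLaw

open MvPolynomial H960VB

/-- the space of the global sections of `E(d)` -/
noncomputable def sections {n : ℕ} (E : Bundle2 n) (d : ℤ) :
    Submodule ℂ (Fin E.a → MvPolynomial (Fin (n + 1)) ℂ) where
  carrier := {G | E.IsSection d G}
  zero_mem' := by
    refine ⟨fun i => Or.inl rfl, fun x _ => ?_⟩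
    have : evv (0 : Fin E.a → MvPolynomial (Fin (n + 1)) ℂ) x = 0 := by
      funext i
      simp [evv]
    rw [this]
    exact zero_mem _
  add_mem' := by
    intro G G' hG hG'
    refine ⟨fun i => ?_, fun x hx => ?_⟩
    · rcases hG.1 i with h | ⟨k, hk, h⟩
      · rw [Pi.add_apply, h, zero_add]
        exact hG'.1 i
      · rcases hG'.1 i with h' | ⟨k', hk', h'⟩
        · rw [Pi.add_apply, h', add_zero]
          exact Or.inr ⟨k, hk, h⟩
        · have : k = k' := by exact_mod_cast hk.trans hk'.symm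
          subst this
          exact Or.inr ⟨k, hk, h.add h'⟩
    · have : evv (G + G') x = evv G x + evv G' x := by
        funext i
        simp [evv]
      rw [this]
      exact add_mem (hG.2 x hx) (hG'.2 x hx)
  smul_mem' := by
    intro c G hG
    refine ⟨fun i => ?_, fun x hx => ?_⟩
    · rcases hG.1 i with h | ⟨k, hk, h⟩
      · left
        rw [Pi.smul_apply, h, smul_zero]
      · right
        refine ⟨k, hk, ?_⟩
        rw [Pi.smul_apply, MvPolynomial.smul_eq_C_mul]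
        simpa using (isHomogeneous_C (Fin (n + 1)) c).mul h
    · have : evv (c • G) x = c • evv G x := by
        funext i
        simp [evv]
      rw [this]
      exact Submodule.smul_mem _ c (hG.2 x hx)

/-- the binomial coefficient `x (x - 1) ⋯ (x - m + 1) / m!` of a complex number `x` -/
noncomputable def binomial (x : ℂ) (m : ℕ) : ℂ :=
  (∏ i ∈ Finset.range m, (x - i)) / (m.factorial : ℂ)

/-- `c₁`, `c₂` are the Chern classes of `E` (more precisely `c₁ h`, `c₂ h²`, with the hyperplane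
class `h`), in terms of the Euler characteristics: `χ(E(d)) = h⁰(E(d))` for large `d`, and by
Hirzebruch-Riemann-Roch `χ(E(d))` is the sum of the binomial coefficients `(n + d + δ_i, n)`, with
the Chern roots `δ₁`, `δ₂`. -/
def HasChernClasses {n : ℕ} (E : Bundle2 n) (c₁ c₂ : ℤ) : Prop :=
  ∃ δ₁ δ₂ : ℂ, δ₁ + δ₂ = c₁ ∧ δ₁ * δ₂ = c₂ ∧ ∃ d₀ : ℤ, ∀ d ≥ d₀,
    (Module.finrank ℂ (sections E d) : ℂ) = binomial (n + d + δ₁) n + binomial (n + d + δ₂) n

/-- Schwarzenberger's condition for `c₁`, `c₂` on `P^n`: by Hirzebruch-Riemann-Roch, the Euler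
characteristics of the twists of a bundle of rank two with these Chern classes are integers -/
def Schwarzenberger (n : ℕ) (c₁ c₂ : ℤ) : Prop :=
  ∀ δ₁ δ₂ : ℂ, δ₁ + δ₂ = c₁ → δ₁ * δ₂ = c₂ → ∀ d : ℤ, ∃ z : ℤ,
    binomial (n + d + δ₁) n + binomial (n + d + δ₂) n = z

/-- `δ = 1`, or `δ` is the discriminant of a quadratic field -/
def Fundamental (δ : ℤ) : Prop :=
  (δ % 4 = 1 ∧ Squarefree δ) ∨ ∃ D : ℤ, δ = 4 * D ∧ (D % 4 = 2 ∨ D % 4 = 3) ∧ Squarefree D

/-- the prime `p` is inert in the quadratic field of discriminant `δ`: the minimal polynomial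
`x² - δ x + (δ² - δ) / 4` of `(δ + √δ) / 2` has no zero modulo `p` -/
def Inert (δ : ℤ) (p : ℕ) : Prop := ∀ x : ℤ, ¬ (p : ℤ) ∣ x ^ 2 - δ * x + (δ ^ 2 - δ) / 4

theorem bin_eq (x : ℂ) (n : ℕ) : binomial x n = Pool.Agent.Q49.RB.bin x n := rfl

theorem schw_iff (n : ℕ) (δ c₁ c₂ d : ℤ) (hδ : Fundamental δ) (hΔ : c₁ ^ 2 - 4 * c₂ = δ * d ^ 2) :
    Schwarzenberger n c₁ c₂ ↔ Pool.Agent.Q49.RB.Divis δ n d := by
  constructor
  · intro h
    -- the Chern roots
    obtain ⟨r, hr⟩ : ∃ r : ℂ, r ^ 2 = ((c₁ ^ 2 - 4 * c₂ : ℤ) : ℂ) :=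
      IsAlgClosed.exists_pow_nat_eq _ (by norm_num)
    push_cast at hr
    refine (Pool.Agent.Q49.RB.law n hδ c₁ c₂ d hΔ ![(c₁ + r) / 2, (c₁ - r) / 2] ?_ ?_).1 ?_
    · simp only [Matrix.cons_val_zero, Matrix.cons_val_one]
      ring
    · simp only [Matrix.cons_val_zero, Matrix.cons_val_one]
      linear_combination (-1 / 4 : ℂ) * hr
    · intro k
      obtain ⟨z, hz⟩ := h ((c₁ + r) / 2) ((c₁ - r) / 2) (by ring)
        (by linear_combination (-1 / 4 : ℂ) * hr) (k - n)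
      refine ⟨z, ?_⟩
      rw [Fin.sum_univ_two]
      simp only [Matrix.cons_val_zero, Matrix.cons_val_one, Int.cast_one, one_mul]
      rw [bin_eq, bin_eq] at hz
      push_cast at hz
      have e1 : (n : ℂ) + ((k : ℂ) - n) + (c₁ + r) / 2 = k + (c₁ + r) / 2 := by ring
      have e2 : (n : ℂ) + ((k : ℂ) - n) + (c₁ - r) / 2 = k + (c₁ - r) / 2 := by ring
      rw [e1, e2] at hz
      exact hz
  · intro h δ₁ δ₂ hs hm d'
    obtain ⟨z, hz⟩ := (Pool.Agent.Q49.RB.law n hδ c₁ c₂ d hΔ ![δ₁, δ₂] (by simpa using hs)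
      (by simpa using hm)).2 h (n + d')
    refine ⟨z, ?_⟩
    rw [Fin.sum_univ_two] at hz
    simp only [Matrix.cons_val_zero, Matrix.cons_val_one, Int.cast_one, one_mul] at hz
    rw [bin_eq, bin_eq]
    push_cast at hz
    exact hz

theorem result (n : ℕ) :
    -- the law
    (∀ δ c₁ c₂ d : ℤ, Fundamental δ → c₁ ^ 2 - 4 * c₂ = δ * d ^ 2 →
      (Schwarzenberger n c₁ c₂ ↔ ∀ p : ℕ, p.Prime → ∀ k ≥ 1,
        (Inert δ p → p ^ k + p ^ (k - 1) ≤ n → (p : ℤ) ^ k ∣ d) ∧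
        ((p : ℤ) ∣ δ → 2 * p ^ k ≤ n → (p : ℤ) ^ k ∣ d))) ∧
    -- it applies to all `c₁`, `c₂`
    (∀ c₁ c₂ : ℤ, ∃ δ d : ℤ, Fundamental δ ∧ c₁ ^ 2 - 4 * c₂ = δ * d ^ 2) ∧
    -- the Chern classes of all bundles of rank two satisfy the condition
    (∀ (E : Bundle2 n) (c₁ c₂ : ℤ), HasChernClasses E c₁ c₂ → Schwarzenberger n c₁ c₂) ∧
    -- the Chern classes of the bundles of Horrocks-Mumford type
    (∀ d k : ℤ, Schwarzenberger n (5 * d + 2 * k) (10 * d ^ 2 + 5 * d * k + k ^ 2) ↔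
      ∀ p : ℕ, p.Prime → ∀ j ≥ 1,
        (p % 15 = 7 ∨ p % 15 = 11 ∨ p % 15 = 13 ∨ p % 15 = 14 → p ^ j + p ^ (j - 1) ≤ n →
          (p : ℤ) ^ j ∣ d) ∧
        (p = 3 ∨ p = 5 → 2 * p ^ j ≤ n → (p : ℤ) ^ j ∣ d)) := by
  refine ⟨fun δ c₁ c₂ d hδ hΔ => ?_, Pool.Agent.Q49.RB.exists_fund, fun E c₁ c₂ hE => ?_,
    fun d k => ?_⟩
  · rw [schw_iff n δ c₁ c₂ d hδ hΔ]
    constructor
    · intro h p hp k hk
      obtain ⟨k, rfl⟩ : ∃ j, k = j + 1 := ⟨k - 1, by omega⟩
      exact h p hp k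
    · intro h p hp k
      exact h p hp (k + 1) (by omega)
  · obtain ⟨δ₁, δ₂, hs, hm, d₀, hd⟩ := hE
    have hI : Pool.Agent.Q49.RB.Integral n (fun _ : Fin 2 => 1) ![δ₁, δ₂] := by
      refine Pool.Agent.Q49.RB.integral_of_large n _ _ (d₀ + n) fun k hk => ?_
      refine ⟨Module.finrank ℂ (sections E (k - n)), ?_⟩
      have h1 := hd (k - n) (by omega)
      push_cast at h1 ⊢
      rw [h1, Fin.sum_univ_two]
      simp only [Matrix.cons_val_zero, Matrix.cons_val_one, one_mul]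
      rw [bin_eq, bin_eq]
      have e1 : (n : ℂ) + ((k : ℂ) - n) + δ₁ = k + δ₁ := by ring
      have e2 : (n : ℂ) + ((k : ℂ) - n) + δ₂ = k + δ₂ := by ring
      rw [e1, e2]
    obtain ⟨δ, d, hδ, hΔ⟩ := Pool.Agent.Q49.RB.exists_fund c₁ c₂
    rw [schw_iff n δ c₁ c₂ d hδ hΔ]
    exact (Pool.Agent.Q49.RB.law n hδ c₁ c₂ d hΔ ![δ₁, δ₂] (by simpa using hs)
      (by simpa using hm)).1 hI
  · rw [schw_iff n (-15) _ _ d Pool.Agent.Q49.RB.fund15 (by ring)]
    constructor
    · intro h p hp j hj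
      obtain ⟨j, rfl⟩ : ∃ i, j = i + 1 := ⟨j - 1, by omega⟩
      exact ⟨fun h1 => (h p hp j).1 ((Pool.Agent.Q49.RB.inert15 hp).2 h1),
        fun h1 => (h p hp j).2 ((Pool.Agent.Q49.RB.dvd15 hp).2 h1)⟩
    · intro h p hp j
      exact ⟨fun h1 => (h p hp (j + 1) (by omega)).1 ((Pool.Agent.Q49.RB.inert15 hp).1 h1),
        fun h1 => (h p hp (j + 1) (by omega)).2 ((Pool.Agent.Q49.RB.dvd15 hp).1 h1)⟩

end Pool.Agent.Results.MP_745d3a_ag.ExtensionLaw
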