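import Mathlib
import Pool.Agent.Q42.SF.BLem
import Pool.Agent.Q42.FD.Bun

/-!
# Few second Chern classes of rank two bundles that extend

Fix the first Chern class `c₁`.  For `K √X ≤ N` every interval of length `X` contains at most `K √X`
integers `c₂` for which `c₁`, `c₂` are the Chern classes of a bundle of rank two on some `P^n`,
`n ≥ N`; in particular of the bundles on `P^4` which extend to such a `P^n`.

The proof: by the exact law of MP_745d3a_ag.ExtensionLaw, `c₁² - 4 c₂` is a square modulo every prime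
`p < n`.  So `c₂` lies in about one half of the residue classes modulo `p`, and the larger sieve of
Gallagher gives the bound.
-/

set_option autoImplicit false

namespace Pool.Agent.Results.MP_745d3a_ag.FewExtensions

open MvPolynomial H960VB Filter Pool.Agent.Q42.SF.B

theorem result :
    -- the Chern classes of the bundles of rank two satisfy the condition
    (∀ (n : ℕ) (E : Bundle2 n) (c₁ c₂ : ℤ), HasChernClasses E c₁ c₂ → Schwarzenberger n c₁ c₂) ∧
    -- few second Chern classes
    ∃ K : ℝ, 0 < K ∧ ∀ (N : ℕ) (c₁ M : ℤ) (X : ℕ) (T : Finset ℤ), 1 ≤ X →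
      (∀ c₂ ∈ T, M < c₂ ∧ c₂ ≤ M + X ∧ ∃ n ≥ N, Schwarzenberger n c₁ c₂) →
      K * √(X : ℝ) ≤ N → (T.card : ℝ) ≤ K * √(X : ℝ) := by
  refine ⟨of_bundle, ?_⟩
  obtain ⟨K, hK, h⟩ := Pool.Agent.Q42.FD.bun_larger
  refine ⟨K, hK, fun N c₁ M X T hX hT hXN => h N c₁ M X T hX (fun m hm => ?_) hXN⟩
  obtain ⟨h1, h2, n, hn, h3⟩ := hT m hm
  exact ⟨h1, h2, n, hn, sch n c₁ m h3⟩

end Pool.Agent.Results.MP_745d3a_ag.FewExtensions
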